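import Pool.Agent.NH40.HS.Main2
import Pool.Agent.NH40.HS.Fin3

set_option autoImplicit false

open MeasureTheory Set Filter
open scoped Topology

/-!
Site percolation on `Z^d`, `d ≥ 3`, at and near the critical point: a quantitative form of the
theorem of Barsky, Grimmett and Newman, in half-spaces which are thickened polynomially.

The main theorem is in the modules `Pool.Agent.NH40.HS.*`.
-/

namespace Pool.Agent.Results.MP_e13933_pr.HalfSpace

noncomputable section

/-- Vertices of `Z^d`. -/
abbrev V (d : ℕ) : Type := Fin d → ℤ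

/-- The box of radius `N` around `z`; it has `(2 * N + 1) ^ d` vertices. -/
def box {d : ℕ} (z : V d) (N : ℕ) : Set (V d) := {x | ∀ i, |x i - z i| ≤ N}

/-- Sup norm. -/
def norm {d : ℕ} (x : V d) : ℕ := Finset.univ.sup (fun i => (x i).natAbs)

/-- The boundary of the box of radius `N` around the origin: the vertices of sup norm `N`. -/
def sphere (d N : ℕ) : Set (V d) := {x | norm x = N}

/-- The half-space `x_v ≥ 0`, thickened polynomially: all vertices with
`x_v ≥ - (1 + |x|)^a`. -/
def thick {d : ℕ} (v : Fin d) (a : ℝ) : Set (V d) := {x | -((1 + (norm x : ℝ)) ^ a) ≤ (x v : ℝ)}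

/-- The open subgraph inside the region `S`: two vertices at Euclidean distance one are joined if
both are open (`ω x = true`) and in `S`. -/
def openGraph {d : ℕ} (ω : V d → Bool) (S : Set (V d)) : SimpleGraph (V d) where
  Adj x y := ∑ i, |x i - y i| = 1 ∧ (x ∈ S ∧ ω x = true) ∧ (y ∈ S ∧ ω y = true)
  symm := ⟨fun x y ⟨h1, h2, h3⟩ => ⟨by simpa only [abs_sub_comm] using h1, h3, h2⟩⟩
  loopless := ⟨fun x h => by simpa using h.1⟩

/-- The open cluster of `x` inside the region `S` (empty if `x` is closed). -/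
def cluster {d : ℕ} (ω : V d → Bool) (S : Set (V d)) (x : V d) : Set (V d) :=
  {y | (ω x = true ∧ x ∈ S) ∧ (openGraph ω S).Reachable x y}

/-- The sets `A` and `B` are connected inside the region `S`: some open cluster inside `S` meets
both of them. -/
def Joined {d : ℕ} (ω : V d → Bool) (S A B : Set (V d)) : Prop :=
  ∃ x ∈ A, (cluster ω S x ∩ B).Nonempty

/-- Site percolation with densities `r x`: the vertex `x` is open with probability `r x`,
independently of all others. -/
def P {d : ℕ} (r : V d → unitInterval) : Measure (V d → Bool) :=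
  Measure.infinitePi (fun x : V d =>
    ENNReal.ofReal (r x : ℝ) • Measure.dirac true +
      ENNReal.ofReal (1 - (r x : ℝ)) • Measure.dirac false)

/-- The percolation probability `θ_d(p)` (all densities equal to `p`). -/
def theta (d : ℕ) (p : unitInterval) : ℝ :=
  (P fun _ : V d => p).real {ω | (cluster ω univ 0).Infinite}

/-- The critical point `p_c(d)`, the supremum of the parameters with `θ_d(p) = 0`. -/
def pc (d : ℕ) : unitInterval :=
  ⟨sSup {t : ℝ | ∃ q : unitInterval, (q : ℝ) = t ∧ theta d q = 0}, by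
    constructor
    · apply Real.sSup_nonneg
      rintro x ⟨q, rfl, _⟩
      exact q.2.1
    · apply Real.sSup_le
      · rintro x ⟨q, rfl, _⟩
        exact q.2.2
      · exact zero_le_one⟩

/-! ### Comparison with the model of the modules -/

lemma nd_mem {d : ℕ} {ω : V d → Bool} {x y : V d} :
    (∀ c ∈ (Pool.Agent.Y990.CB.siteM d).nd x y, ω c = true) ↔ ω x = true ∧ ω y = true := by
  show (∀ c : V d, c ∈ ({x, y} : Finset (V d)) → ω c = true) ↔ _
  simp only [Finset.mem_insert, Finset.mem_singleton, forall_eq_or_imp, forall_eq]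

open Pool.Agent.Y990.CB in
lemma adj_iff {d : ℕ} (ω : V d → Bool) (S : Set (V d)) (x y : V d) :
    (openGraph ω S).Adj x y ↔ (G (siteM d) ω S).Adj x y := by
  show (∑ i, |x i - y i| = 1 ∧ (x ∈ S ∧ ω x = true) ∧ (y ∈ S ∧ ω y = true)) ↔
    (∑ i, |x i - y i| = 1 ∧ x ∈ S ∧ y ∈ S ∧ ∀ c ∈ (siteM d).nd x y, ω c = true)
  rw [nd_mem]
  tauto

open Pool.Agent.Y990.CB in
lemma graph_eq {d : ℕ} (ω : V d → Bool) (S : Set (V d)) :
    openGraph ω S = G (siteM d) ω S := by
  ext x y
  exact adj_iff ω S x y

open Pool.Agent.Y990.CB in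
lemma cluster_sub {d : ℕ} (ω : V d → Bool) (S : Set (V d)) (x : V d) :
    cluster ω S x ⊆ cl (siteM d) ω S x := by
  rintro y ⟨-, h⟩
  rw [graph_eq] at h
  exact h

open Pool.Agent.Y990.CB in
lemma infinite_iff {d : ℕ} (ω : V d → Bool) (x : V d) :
    (cluster ω univ x).Infinite ↔ ω ∈ Perc (siteM d) x := by
  constructor
  · intro h
    exact h.mono (cluster_sub ω univ x)
  · intro h
    have hx : ω x = true := by
      obtain ⟨y, hy, hyx⟩ := Set.Infinite.exists_notMem_finset h {x}
      have hyx' : y ≠ x := by simpa using hyx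
      have hr : (G (siteM d) ω univ).Reachable x y := hy
      obtain ⟨q⟩ := hr
      cases q with
      | nil => exact absurd rfl hyx'
      | cons hadj _ => exact (nd_mem.1 hadj.2.2.2).1
    refine Set.Infinite.mono ?_ h
    intro y hy
    refine ⟨⟨hx, mem_univ x⟩, ?_⟩
    rw [graph_eq]
    exact hy

lemma P_eq {d : ℕ} (r : V d → unitInterval) : P r = Pool.Agent.W783.PC.pm r := rfl

instance {d : ℕ} (r : V d → unitInterval) : IsProbabilityMeasure (P r) :=
  inferInstanceAs (IsProbabilityMeasure (Pool.Agent.W783.PC.pm r))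

open Pool.Agent.Y990.CB in
lemma theta_eq (d : ℕ) (p : unitInterval) : theta d p = th (siteM d) p := by
  unfold theta th mu
  rw [P_eq]
  congr 1
  ext ω
  exact infinite_iff ω 0

open Pool.Agent.Y990.CB in
lemma pc_eq (d : ℕ) : pc d = Pool.Agent.Y990.CB.pc (siteM d) := by
  apply Subtype.ext
  show sSup {t : ℝ | ∃ q : unitInterval, (q : ℝ) = t ∧ theta d q = 0} =
    sSup {x : ℝ | ∃ q : unitInterval, (q : ℝ) = x ∧ th (siteM d) q = 0}
  simp only [theta_eq]

open Pool.Agent.Y990.CB in
lemma box_eq {d : ℕ} (z : V d) (N : ℕ) : box z N = Bo z N := rfl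

open Pool.Agent.Y990.CB in
lemma norm_eq {d : ℕ} (x : V d) : norm x = nm x := rfl

open Pool.Agent.Y990.CB in
lemma thick_eq {d : ℕ} (v : Fin d) (a : ℝ) : thick v a = Pool.Agent.NH40.HS.Gp v a := rfl

open Pool.Agent.Y990.CB in
lemma sphere_sub {d : ℕ} (hd : 1 ≤ d) (n : ℕ) : sphere d n ⊆ Fr (0 : V d) n := by
  intro x hx
  have hx' : nm x = n := hx
  constructor
  · intro i
    rw [Pi.zero_apply, sub_zero]
    have := abs_le_nm x i
    rw [hx'] at this
    exact this
  · obtain ⟨i, hi⟩ := exists_nm hd x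
    refine ⟨i, ?_⟩
    rw [Pi.zero_apply, sub_zero, hi, hx']

open Pool.Agent.Y990.CB in
lemma joined_sub {d : ℕ} (hd : 1 ≤ d) {ω : V d → Bool} {v : Fin d} {a : ℝ} {K n : ℕ}
    (h : Joined ω (thick v a) (box 0 K) (sphere d n)) :
    ω ∈ Lk (siteM d) (Pool.Agent.NH40.HS.Gp v a) (Bo 0 K ∩ Pool.Agent.NH40.HS.Gp v a)
      (Fr 0 n) := by
  obtain ⟨x, hx, y, ⟨⟨hx1, hx2⟩, hy⟩, hyn⟩ := h
  refine ⟨x, ⟨by rw [← box_eq]; exact hx, hx2⟩, y, sphere_sub hd n hyn, ?_⟩
  exact cluster_sub ω _ x ⟨⟨hx1, hx2⟩, hy⟩

/-! ### Infinite clusters reach every distance -/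

lemma norm_step {d : ℕ} {x y : V d} (h : ∑ i, |x i - y i| = 1) : norm y ≤ norm x + 1 := by
  refine Finset.sup_le fun i _ => ?_
  have h1 : |x i - y i| ≤ 1 := by
    rw [← h]
    exact Finset.single_le_sum (f := fun i => |x i - y i|) (fun i _ => abs_nonneg _)
      (Finset.mem_univ i)
  have h2 : (x i).natAbs ≤ norm x :=
    Finset.le_sup (f := fun i => (x i).natAbs) (Finset.mem_univ i)
  have h3 := abs_le.1 h1
  omega

lemma reach_sphere {d : ℕ} {ω : V d → Bool} {S : Set (V d)} {x y : V d} {n : ℕ}
    (h : (openGraph ω S).Reachable x y) (hx : norm x ≤ n) (hy : n ≤ norm y) :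
    ∃ z, norm z = n ∧ (openGraph ω S).Reachable x z := by
  obtain ⟨p⟩ := h
  induction p with
  | nil => exact ⟨_, le_antisymm hx hy, SimpleGraph.Reachable.refl _⟩
  | cons hadj q ih =>
    rename_i u w z
    rcases eq_or_lt_of_le hx with h0 | h0
    · exact ⟨u, h0, SimpleGraph.Reachable.refl _⟩
    · have h1 : norm w ≤ n := by
        have := norm_step hadj.1
        omega
      obtain ⟨z', hz1, hz2⟩ := ih h1 hy
      exact ⟨z', hz1, hadj.reachable.trans hz2⟩

lemma finite_norm (d n : ℕ) : {x : V d | norm x ≤ n}.Finite := by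
  have : {x : V d | norm x ≤ n} ⊆ Set.pi univ (fun _ => Set.Icc (-(n : ℤ)) n) := by
    intro x hx i _
    have h1 : (x i).natAbs ≤ norm x :=
      Finset.le_sup (f := fun i => (x i).natAbs) (Finset.mem_univ i)
    have h2 : norm x ≤ n := hx
    constructor <;> omega
  exact (Set.Finite.pi' fun _ => Set.finite_Icc _ _).subset (fun x hx i => this hx i trivial)

lemma infinite_joined {d : ℕ} {ω : V d → Bool} {S : Set (V d)} {x : V d} {K n : ℕ}
    (h : (cluster ω S x).Infinite) (hx : x ∈ box 0 K) (hn : norm x ≤ n) :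
    Joined ω S (box 0 K) (sphere d n) := by
  obtain ⟨y, hy, hyn⟩ := h.exists_notMem_finite (finite_norm d n)
  have hyn' : n ≤ norm y := by
    have : ¬ norm y ≤ n := hyn
    omega
  obtain ⟨z, hz1, hz2⟩ := reach_sphere hy.2 hn hyn'
  exact ⟨x, hx, z, ⟨hy.1, hz2⟩, hz1⟩

lemma norm_le_of_box {d K : ℕ} {x : V d} (hx : x ∈ box 0 K) : norm x ≤ K := by
  refine Finset.sup_le fun i _ => ?_
  have h := hx i
  rw [Pi.zero_apply, sub_zero] at h
  have h1 := abs_le.1 h
  omega

lemma box_of_norm {d K : ℕ} {x : V d} (hx : norm x ≤ K) : x ∈ box (0 : V d) K := by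
  intro i
  have h1 : (x i).natAbs ≤ norm x :=
    Finset.le_sup (f := fun i => (x i).natAbs) (Finset.mem_univ i)
  rw [Pi.zero_apply, sub_zero, abs_le]
  constructor <;> omega

/-- **Critical and near-critical percolation in thickened half-spaces.**  For every `d ≥ 3` there
are `a, b, c > 0` and `C` such that for every coordinate `v`, in the region
`x_v ≥ - (1 + |x|)^a`:

* for all `2 ≤ K ≤ n` and all densities `r x` with `r x ≤ p_c + (1 + |x|)^(-b)` for `|x| ≤ n`, the
  probability that the box of radius `K` is connected to distance `n` inside the region is at most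
  `C (log K / log n)^c`;
* if `r x ≤ p_c + (1 + |x|)^(-b)` for all `x`, there is almost surely no infinite cluster inside
  the region;
* for all `p > p_c` and `K ≥ 2` the `P_p`-probability that some vertex of the box of radius `K` is
  in an infinite cluster inside the region is at most `C (log K / log (1 / (p - p_c)))^c`. -/
theorem result (d : ℕ) (hd : 3 ≤ d) : ∃ a b c C : ℝ, 0 < a ∧ 0 < b ∧ 0 < c ∧ ∀ v : Fin d,
    (∀ (K n : ℕ) (r : V d → unitInterval), 2 ≤ K → K ≤ n →
      (∀ x, norm x ≤ n → (r x : ℝ) ≤ pc d + (1 + (norm x : ℝ)) ^ (-b)) →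
      (P r).real {ω | Joined ω (thick v a) (box 0 K) (sphere d n)} ≤
        C * (Real.log K / Real.log n) ^ c) ∧
    (∀ r : V d → unitInterval, (∀ x, (r x : ℝ) ≤ pc d + (1 + (norm x : ℝ)) ^ (-b)) →
      ∀ x : V d, (P r).real {ω | (cluster ω (thick v a) x).Infinite} = 0) ∧
    (∀ (K : ℕ) (p : unitInterval), 2 ≤ K → pc d < p →
      (P fun _ : V d => p).real {ω | ∃ x ∈ box 0 K, (cluster ω (thick v a) x).Infinite} ≤
        C * (Real.log K / Real.log (1 / ((p : ℝ) - pc d))) ^ c) := by
  obtain ⟨a, b, c, C, ha, hb, hc, hC, h⟩ :=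
    Pool.Agent.NH40.HS.fin3 Pool.Agent.NH40.HS.main d hd
  have h1 : ∀ (v : Fin d) (K n : ℕ) (r : V d → unitInterval), 2 ≤ K → K ≤ n →
      (∀ x, norm x ≤ n → (r x : ℝ) ≤ pc d + (1 + (norm x : ℝ)) ^ (-b)) →
      (P r).real {ω | Joined ω (thick v a) (box 0 K) (sphere d n)} ≤
        C * (Real.log K / Real.log n) ^ c := by
    intro v K n r hK hKn hr
    rw [pc_eq] at hr
    refine le_trans ?_ (h v K n hK hKn r hr)
    rw [P_eq]
    exact measureReal_mono (fun ω hω => joined_sub (by omega) hω) (measure_ne_top _ _)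
  obtain ⟨C', hC'⟩ : ∃ C' : ℝ, C' = max (C * (2 * b) ^ c) ((4 * b) ^ c) + C := ⟨_, rfl⟩
  have hm0 : 0 ≤ max (C * (2 * b) ^ c) ((4 * b) ^ c) :=
    le_max_of_le_right (by positivity)
  have hCC : C ≤ C' := by rw [hC']; linarith
  have hC1 : C * (2 * b) ^ c ≤ C' := by
    rw [hC']
    linarith [le_max_left (C * (2 * b) ^ c) ((4 * b) ^ c)]
  have hC2 : (4 * b) ^ c ≤ C' := by
    rw [hC']
    linarith [le_max_right (C * (2 * b) ^ c) ((4 * b) ^ c)]
  refine ⟨a, b, c, C', ha, hb, hc, fun v => ⟨?_, ?_, ?_⟩⟩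
  · intro K n r hK hKn hr
    refine (h1 v K n r hK hKn hr).trans (mul_le_mul_of_nonneg_right hCC ?_)
    have : 0 ≤ Real.log n := Real.log_natCast_nonneg n
    have : 0 ≤ Real.log K := Real.log_natCast_nonneg K
    positivity
  · intro r hr x
    obtain ⟨K, hK⟩ : ∃ K : ℕ, K = max 2 (norm x) := ⟨_, rfl⟩
    have hK2 : 2 ≤ K := by omega
    have hKx : norm x ≤ K := by omega
    have hlim : Tendsto (fun n : ℕ => C * (Real.log K / Real.log n) ^ c) atTop (𝓝 0) := by
      have h2 : Tendsto (fun n : ℕ => Real.log K / Real.log n) atTop (𝓝 0) :=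
        Tendsto.div_atTop tendsto_const_nhds
          (Real.tendsto_log_atTop.comp tendsto_natCast_atTop_atTop)
      have h3 := (h2.rpow_const (p := c) (Or.inr hc.le)).const_mul C
      rwa [Real.zero_rpow hc.ne', mul_zero] at h3
    refine le_antisymm (ge_of_tendsto hlim ?_) measureReal_nonneg
    filter_upwards [eventually_ge_atTop K] with n hn
    refine le_trans ?_ (h1 v K n r hK2 hn fun y _ => hr y)
    exact measureReal_mono (fun ω hω => infinite_joined hω (box_of_norm hKx) (hKx.trans hn))
      (measure_ne_top _ _)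
  · intro K p hK hp
    have hδ0 : 0 < (p : ℝ) - pc d := sub_pos.2 hp
    have hpc0 : 0 < (pc d : ℝ) := by
      rw [pc_eq]
      exact Pool.Agent.Y333.CB.pc_pos d _ Pool.Agent.Y990.CB.nd_site
    have hδ1 : (p : ℝ) - pc d < 1 := by linarith [p.2.2]
    obtain ⟨L, hL⟩ : ∃ L : ℝ, L = Real.log (1 / ((p : ℝ) - pc d)) := ⟨_, rfl⟩
    have hL0 : 0 < L := by
      rw [hL]
      exact Real.log_pos (by rw [lt_div_iff₀ hδ0]; linarith)
    have hδL : (p : ℝ) - pc d = Real.exp (-L) := by
      rw [hL, one_div, Real.log_inv, neg_neg, Real.exp_log hδ0]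
    rw [← hL]
    have hKr : (2 : ℝ) ≤ K := by exact_mod_cast hK
    have hlogK : 0 < Real.log K := Real.log_pos (by linarith)
    rcases le_or_gt L (4 * b * Real.log K) with hcase | hcase
    · -- trivial case
      refine le_trans ?_ (mul_le_mul_of_nonneg_right hC2 (by positivity))
      have h2 : 1 ≤ 4 * b * (Real.log K / L) := by
        rw [← mul_div_assoc, le_div_iff₀ hL0]
        linarith
      rw [← Real.mul_rpow (by positivity) (by positivity)]
      refine le_trans ?_ (Real.one_le_rpow h2 hc.le)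
      exact measureReal_le_one
    · obtain ⟨m, hm⟩ : ∃ m : ℕ, m = ⌊Real.exp (L / b)⌋₊ := ⟨_, rfl⟩
      have hE : (K : ℝ) ^ 4 ≤ Real.exp (L / b) := by
        rw [← Real.log_le_log_iff (by positivity) (Real.exp_pos _), Real.log_exp, Real.log_pow,
          le_div_iff₀ hb]
        push_cast
        nlinarith
      have hmE : (m : ℝ) ≤ Real.exp (L / b) := by
        rw [hm]
        exact Nat.floor_le (Real.exp_pos _).le
      have hmE' : Real.exp (L / b) < m + 1 := by
        rw [hm]
        exact Nat.lt_floor_add_one _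
      have hmK : K ^ 4 ≤ m := by
        rw [hm]
        refine Nat.le_floor ?_
        push_cast
        exact hE
      have hK4 : 8 * K ≤ K ^ 4 := by
        have h3 : 2 ^ 3 ≤ K ^ 3 := Nat.pow_le_pow_left hK 3
        calc 8 * K = 2 ^ 3 * K := by norm_num
          _ ≤ K ^ 3 * K := Nat.mul_le_mul_right K h3
          _ = K ^ 4 := by ring
      obtain ⟨n, hn⟩ : ∃ n : ℕ, n + 1 = m := ⟨m - 1, by omega⟩
      have hKn : K ≤ n := by omega
      have hr : ∀ x : V d, norm x ≤ n → (p : ℝ) ≤ pc d + (1 + (norm x : ℝ)) ^ (-b) := by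
        intro x hx
        have h2 : (1 + (norm x : ℝ)) ≤ Real.exp (L / b) := by
          have h3 : ((norm x + 1 : ℕ) : ℝ) ≤ (m : ℝ) := by
            exact_mod_cast (by omega : norm x + 1 ≤ m)
          push_cast at h3
          linarith
        have h3 : Real.exp (L / b) ^ (-b) ≤ (1 + (norm x : ℝ)) ^ (-b) :=
          Real.rpow_le_rpow_of_nonpos (by positivity) h2 (by linarith)
        have h4 : Real.exp (L / b) ^ (-b) = Real.exp (-L) := by
          rw [← Real.exp_mul]
          congr 1
          field_simp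
        rw [h4, ← hδL] at h3
        linarith
      have h2 := h1 v K n (fun _ => p) hK hKn hr
      have h3 : (P fun _ : V d => p).real {ω | ∃ x ∈ box 0 K, (cluster ω (thick v a) x).Infinite} ≤
          C * (Real.log K / Real.log n) ^ c := by
        refine le_trans (measureReal_mono ?_ (measure_ne_top _ _)) h2
        rintro ω ⟨x, hx, hinf⟩
        exact infinite_joined hinf hx ((norm_le_of_box hx).trans hKn)
      refine h3.trans ?_
      have hlogn : L / (2 * b) ≤ Real.log n := by
        have hn2 : Real.exp (L / (2 * b)) ≤ n := by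
          have e1 : Real.exp (L / b) = Real.exp (L / (2 * b)) ^ 2 := by
            rw [← Real.exp_nat_mul]
            congr 1
            push_cast
            field_simp
          have e2 : (K : ℝ) ^ 2 ≤ Real.exp (L / (2 * b)) := by
            rw [← Real.log_le_log_iff (by positivity) (Real.exp_pos _), Real.log_exp, Real.log_pow,
              le_div_iff₀ (by positivity)]
            push_cast
            nlinarith
          have e3 : (m : ℝ) = n + 1 := by rw [← hn]; push_cast; ring
          have e4 : (4 : ℝ) ≤ (K : ℝ) ^ 2 := by nlinarith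
          nlinarith
        have := Real.log_le_log (Real.exp_pos _) hn2
        rwa [Real.log_exp] at this
      have hlogn0 : 0 < Real.log n := lt_of_lt_of_le (by positivity) hlogn
      have h4 : Real.log K / Real.log n ≤ 2 * b * (Real.log K / L) := by
        rw [← mul_div_assoc, div_le_div_iff₀ hlogn0 hL0]
        have h5 : L ≤ 2 * b * Real.log n := by
          rw [div_le_iff₀ (by positivity)] at hlogn
          linarith
        nlinarith
      calc C * (Real.log K / Real.log n) ^ c ≤ C * (2 * b * (Real.log K / L)) ^ c := by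
            refine mul_le_mul_of_nonneg_left ?_ hC.le
            exact Real.rpow_le_rpow (by positivity) h4 hc.le
        _ = C * (2 * b) ^ c * (Real.log K / L) ^ c := by
            rw [Real.mul_rpow (by positivity) (by positivity)]
            ring
        _ ≤ C' * (Real.log K / L) ^ c := mul_le_mul_of_nonneg_right hC1 (by positivity)

end

end Pool.Agent.Results.MP_e13933_pr.HalfSpace
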