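import Pool.Agent.NH40.Surf2

set_option autoImplicit false

open MeasureTheory Set Filter
open scoped Topology

/-!
Site percolation on `Z^d`, `d ≥ 3`: lower bounds, at the critical point and for `p` slightly above
it, for the probability that a box has no open crossing between two opposite faces (this is the
event in the definition of the surface tension), that a box is disconnected from the boundary of
the box of twice the radius, and that a box contains no vertex of an infinite cluster.
-/

namespace Pool.Agent.Results.MP_e13933_pr.SurfaceTension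

noncomputable section

/-- Vertices of `Z^d`. -/
abbrev V (d : ℕ) : Type := Fin d → ℤ

/-- The box of radius `N` around the origin. -/
def box (d N : ℕ) : Set (V d) := {x | ∀ i, |x i| ≤ N}

/-- The boundary of the box: the vertices of sup norm `N`. -/
def sphere (d N : ℕ) : Set (V d) := {x | x ∈ box d N ∧ ∃ i, |x i| = N}

/-- The open subgraph inside the region `S`: two vertices at Euclidean distance one are joined if
both are open (`ω x = true`) and in `S`. -/
def openGraph {d : ℕ} (ω : V d → Bool) (S : Set (V d)) : SimpleGraph (V d) where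
  Adj x y := ∑ i, |x i - y i| = 1 ∧ (x ∈ S ∧ ω x = true) ∧ (y ∈ S ∧ ω y = true)
  symm := ⟨fun x y ⟨h1, h2, h3⟩ => ⟨by simpa only [abs_sub_comm] using h1, h3, h2⟩⟩
  loopless := ⟨fun x h => by simpa using h.1⟩

/-- The open cluster of `x` inside the region `S` (empty if `x` is closed). -/
def cluster {d : ℕ} (ω : V d → Bool) (S : Set (V d)) (x : V d) : Set (V d) :=
  {y | (ω x = true ∧ x ∈ S) ∧ (openGraph ω S).Reachable x y}

/-- Site percolation with parameter `p`: all vertices are open with probability `p`,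
independently. -/
def P (d : ℕ) (p : unitInterval) : Measure (V d → Bool) :=
  Measure.infinitePi (fun _ : V d =>
    ENNReal.ofReal (p : ℝ) • Measure.dirac true + ENNReal.ofReal (1 - (p : ℝ)) • Measure.dirac false)

/-- The percolation probability `θ_d(p)`. -/
def theta (d : ℕ) (p : unitInterval) : ℝ := (P d p).real {ω | (cluster ω univ 0).Infinite}

/-- The critical point `p_c(d)`, the supremum of the parameters with `θ_d(p) = 0`. -/
def pc (d : ℕ) : unitInterval :=
  ⟨sSup {t : ℝ | ∃ q : unitInterval, (q : ℝ) = t ∧ theta d q = 0}, by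
    constructor
    · apply Real.sSup_nonneg
      rintro x ⟨q, rfl, _⟩
      exact q.2.1
    · apply Real.sSup_le
      · rintro x ⟨q, rfl, _⟩
        exact q.2.2
      · exact zero_le_one⟩

lemma nd_mem {d : ℕ} {ω : V d → Bool} {x y : V d} :
    (∀ c ∈ (Pool.Agent.Y990.CB.siteM d).nd x y, ω c = true) ↔ ω x = true ∧ ω y = true := by
  show (∀ c : V d, c ∈ ({x, y} : Finset (V d)) → ω c = true) ↔ _
  simp only [Finset.mem_insert, Finset.mem_singleton, forall_eq_or_imp, forall_eq]

open Pool.Agent.Y990.CB in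
lemma graph_eq {d : ℕ} (ω : V d → Bool) (S : Set (V d)) :
    openGraph ω S = G (siteM d) ω S := by
  ext x y
  show (∑ i, |x i - y i| = 1 ∧ (x ∈ S ∧ ω x = true) ∧ (y ∈ S ∧ ω y = true)) ↔
    (∑ i, |x i - y i| = 1 ∧ x ∈ S ∧ y ∈ S ∧ ∀ c ∈ (siteM d).nd x y, ω c = true)
  rw [nd_mem]
  tauto

open Pool.Agent.Y990.CB in
lemma cluster_sub {d : ℕ} (ω : V d → Bool) (S : Set (V d)) (x : V d) :
    cluster ω S x ⊆ cl (siteM d) ω S x := by
  rintro y ⟨-, h⟩
  rw [graph_eq] at h
  exact h

open Pool.Agent.Y990.CB in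
lemma infinite_iff {d : ℕ} (ω : V d → Bool) (x : V d) :
    (cluster ω univ x).Infinite ↔ ω ∈ Perc (siteM d) x := by
  constructor
  · intro h
    exact h.mono (cluster_sub ω univ x)
  · intro h
    have hx : ω x = true := by
      obtain ⟨y, hy, hyx⟩ := Set.Infinite.exists_notMem_finset h {x}
      have hyx' : y ≠ x := by simpa using hyx
      have hr : (G (siteM d) ω univ).Reachable x y := hy
      obtain ⟨q⟩ := hr
      cases q with
      | nil => exact absurd rfl hyx'
      | cons hadj _ => exact (nd_mem.1 hadj.2.2.2).1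
    refine Set.Infinite.mono ?_ h
    intro y hy
    refine ⟨⟨hx, mem_univ x⟩, ?_⟩
    rw [graph_eq]
    exact hy

open Pool.Agent.Y990.CB in
lemma P_eq (d : ℕ) (p : unitInterval) : P d p = mu (siteM d) p := rfl

open Pool.Agent.Y990.CB in
lemma theta_eq (d : ℕ) (p : unitInterval) : theta d p = th (siteM d) p := by
  unfold theta th
  rw [P_eq]
  congr 1
  ext ω
  exact infinite_iff ω 0

open Pool.Agent.Y990.CB in
lemma pc_eq (d : ℕ) : pc d = Pool.Agent.Y990.CB.pc (siteM d) := by
  apply Subtype.ext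
  show sSup {t : ℝ | ∃ q : unitInterval, (q : ℝ) = t ∧ theta d q = 0} =
    sSup {x : ℝ | ∃ q : unitInterval, (q : ℝ) = x ∧ th (siteM d) q = 0}
  simp only [theta_eq]

open Pool.Agent.Y990.CB in
lemma box_eq (d N : ℕ) : box d N = Bo (0 : V d) N := by
  ext x
  simp only [box, Bo, mem_ofPred_eq, Pi.zero_apply, sub_zero]

open Pool.Agent.Y990.CB in
lemma sphere_eq (d N : ℕ) : sphere d N = Fr (0 : V d) N := by
  ext x
  simp only [sphere, Fr, box_eq, mem_ofPred_eq, Pi.zero_apply, sub_zero]

/-- **Surface tension at and just above the critical point.**  For every `d ≥ 3` there are `a > 0`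
and `C > 0` such that for all `p` with `p_c ≤ p ≤ p_c + a` and all `n ≥ C` each of the following
events has `P_p`-probability at least `exp (- C n^(d-1) ((p - p_c)^a + n^(-a)))`:

* no open path inside the box of radius `n` joins its two faces orthogonal to the coordinate
  direction `i`;
* no open path inside the box of radius `2 n` joins the box of radius `n` to the boundary of the
  box of radius `2 n`;
* no vertex of the box of radius `n` is in an infinite cluster. -/
theorem result (d : ℕ) (hd : 3 ≤ d) : ∃ a C : ℝ, 0 < a ∧ 0 < C ∧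
    ∀ (p : unitInterval) (n : ℕ), pc d ≤ p → (p : ℝ) ≤ pc d + a → C ≤ n →
      (∀ i : Fin d,
        Real.exp (-(C * (n : ℝ) ^ (d - 1) * (((p : ℝ) - pc d) ^ a + (n : ℝ) ^ (-a)))) ≤
          (P d p).real {ω | ∀ x ∈ box d n, ∀ y ∈ box d n, x i = -n → y i = n →
            y ∉ cluster ω (box d n) x}) ∧
      Real.exp (-(C * (n : ℝ) ^ (d - 1) * (((p : ℝ) - pc d) ^ a + (n : ℝ) ^ (-a)))) ≤
        (P d p).real {ω | ∀ x ∈ box d n, ∀ y ∈ sphere d (2 * n),
          y ∉ cluster ω (box d (2 * n)) x} ∧
      Real.exp (-(C * (n : ℝ) ^ (d - 1) * (((p : ℝ) - pc d) ^ a + (n : ℝ) ^ (-a)))) ≤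
        (P d p).real {ω | ∀ x ∈ box d n, (cluster ω univ x).Finite} := by
  obtain ⟨a, C, ha, hC, h⟩ := Pool.Agent.NH40.surf_main hd (Pool.Agent.Y990.CB.siteM d)
    Pool.Agent.Y990.CB.nd_site (Pool.Agent.Y448.CB2.qm_site d)
  refine ⟨a, C, ha, hC, fun p n hp hpa hn => ?_⟩
  rw [pc_eq] at hp hpa
  rw [pc_eq]
  have hi : (0 : ℕ) < d := by omega
  refine ⟨fun i => ?_, ?_, ?_⟩
  · refine ((h p n i hp hpa hn).2).trans ?_
    rw [P_eq]
    refine measureReal_mono ?_ (measure_ne_top _ _)
    intro ω hω x hx y hy hxi hyi hc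
    apply hω
    rw [box_eq] at hx hy hc
    exact ⟨x, ⟨hx, hxi⟩, y, ⟨hy, hyi⟩, cluster_sub ω _ x hc⟩
  · refine ((h p n ⟨0, hi⟩ hp hpa hn).1).trans ?_
    rw [P_eq]
    unfold Pool.Agent.Y990.OA.hol
    refine measureReal_mono ?_ (measure_ne_top _ _)
    intro ω hω x hx y hy hc
    apply hω
    rw [box_eq] at hx hc
    rw [sphere_eq] at hy
    exact ⟨x, hx, y, hy, cluster_sub ω _ x hc⟩
  · refine ((h p n ⟨0, hi⟩ hp hpa hn).1).trans ?_
    rw [P_eq]
    unfold Pool.Agent.Y990.OA.hol
    refine measureReal_mono ?_ (measure_ne_top _ _)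
    intro ω hω x hx
    by_contra hinf
    have h1 : ω ∈ Pool.Agent.Y990.CB.Perc (Pool.Agent.Y990.CB.siteM d) x :=
      (infinite_iff ω x).1 hinf
    have h2 : (Pool.Agent.Y990.CB.cl (Pool.Agent.Y990.CB.siteM d) ω univ x).Infinite := h1
    have h3 : ∃ y ∈ Pool.Agent.Y990.CB.cl (Pool.Agent.Y990.CB.siteM d) ω univ x,
        y ∉ Pool.Agent.Y990.CB.Bo (0 : V d) (2 * n) := by
      by_contra hc
      push Not at hc
      exact h2 ((Pool.Agent.Y990.CB.Bo_finite 0 (2 * n)).subset hc)
    obtain ⟨y, hy, hyn⟩ := h3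
    rw [box_eq] at hx
    obtain ⟨x', hx', hr⟩ := Pool.Agent.Y990.CB.exit_box
      (Pool.Agent.Y990.CB.Bo_mono 0 (by omega : n ≤ 2 * n) hx) hyn hy
    exact hω ⟨x, hx, x', hx', Pool.Agent.Y990.CB.reach_mono Set.inter_subset_right hr⟩

end

end Pool.Agent.Results.MP_e13933_pr.SurfaceTension
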