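import Pool.Agent.NH40.Xi

set_option autoImplicit false

open MeasureTheory Set Filter
open scoped Topology

/-!
Site percolation on `Z^d`, `d ≥ 3`: lower bounds for the truncated two-point function, that is, for
the probability that the origin and `x` are in the same finite open cluster, at the critical point
and for `p` slightly above it.  The bounds are of the form
`exp (- C (p - p_c)^a ‖x‖)`, so the truncated correlation length is at least a power of
`1 / (p - p_c)` as `p` decreases to `p_c`.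
-/

namespace Pool.Agent.Results.MP_e13933_pr.TruncatedAbove

noncomputable section

/-- Vertices of `Z^d`. -/
abbrev V (d : ℕ) : Type := Fin d → ℤ

/-- The open subgraph: two vertices at Euclidean distance one are joined if both are open
(`ω x = true`). -/
def openGraph {d : ℕ} (ω : V d → Bool) : SimpleGraph (V d) where
  Adj x y := ∑ i, |x i - y i| = 1 ∧ ω x = true ∧ ω y = true
  symm := ⟨fun x y ⟨h1, h2, h3⟩ => ⟨by simpa only [abs_sub_comm] using h1, h3, h2⟩⟩
  loopless := ⟨fun x h => by simpa using h.1⟩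

/-- The open cluster of `x` (empty if `x` is closed). -/
def cluster {d : ℕ} (ω : V d → Bool) (x : V d) : Set (V d) :=
  {y | ω x = true ∧ (openGraph ω).Reachable x y}

/-- Site percolation with parameter `p`: all vertices are open with probability `p`,
independently. -/
def P (d : ℕ) (p : unitInterval) : Measure (V d → Bool) :=
  Measure.infinitePi (fun _ : V d =>
    ENNReal.ofReal (p : ℝ) • Measure.dirac true + ENNReal.ofReal (1 - (p : ℝ)) • Measure.dirac false)

/-- The percolation probability `θ_d(p)`. -/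
def theta (d : ℕ) (p : unitInterval) : ℝ := (P d p).real {ω | (cluster ω 0).Infinite}

/-- The critical point `p_c(d)`, the supremum of the parameters with `θ_d(p) = 0`. -/
def pc (d : ℕ) : unitInterval :=
  ⟨sSup {t : ℝ | ∃ q : unitInterval, (q : ℝ) = t ∧ theta d q = 0}, by
    constructor
    · apply Real.sSup_nonneg
      rintro x ⟨q, rfl, _⟩
      exact q.2.1
    · apply Real.sSup_le
      · rintro x ⟨q, rfl, _⟩
        exact q.2.2
      · exact zero_le_one⟩

/-- The truncated two-point function: the probability that `0` and `x` are in the same finite open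
cluster. -/
def truncated (d : ℕ) (p : unitInterval) (x : V d) : ℝ :=
  (P d p).real {ω | (cluster ω 0).Finite ∧ x ∈ cluster ω 0}

lemma nd_mem {d : ℕ} {ω : V d → Bool} {x y : V d} :
    (∀ c ∈ (Pool.Agent.Y990.CB.siteM d).nd x y, ω c = true) ↔ ω x = true ∧ ω y = true := by
  show (∀ c : V d, c ∈ ({x, y} : Finset (V d)) → ω c = true) ↔ _
  simp only [Finset.mem_insert, Finset.mem_singleton, forall_eq_or_imp, forall_eq]

open Pool.Agent.Y990.CB in
lemma graph_eq {d : ℕ} (ω : V d → Bool) : openGraph ω = G (siteM d) ω univ := by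
  ext x y
  show (∑ i, |x i - y i| = 1 ∧ ω x = true ∧ ω y = true) ↔
    (∑ i, |x i - y i| = 1 ∧ x ∈ univ ∧ y ∈ univ ∧ ∀ c ∈ (siteM d).nd x y, ω c = true)
  rw [nd_mem]
  simp only [mem_univ, true_and]

open Pool.Agent.Y990.CB in
lemma cluster_sub {d : ℕ} (ω : V d → Bool) (x : V d) : cluster ω x ⊆ cl (siteM d) ω univ x := by
  rintro y ⟨-, h⟩
  rw [graph_eq] at h
  exact h

open Pool.Agent.Y990.CB in
lemma open_of {d : ℕ} {ω : V d → Bool} {x y : V d} (h : y ∈ cl (siteM d) ω univ x) (hxy : y ≠ x) :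
    ω x = true := by
  obtain ⟨q⟩ := h
  cases q with
  | nil => exact absurd rfl hxy
  | cons hadj _ => exact (nd_mem.1 hadj.2.2.2).1

open Pool.Agent.Y990.CB in
lemma cluster_eq {d : ℕ} {ω : V d → Bool} {x : V d} (h : ω x = true) :
    cluster ω x = cl (siteM d) ω univ x := by
  refine Subset.antisymm (cluster_sub ω x) fun y hy => ⟨h, ?_⟩
  rw [graph_eq]
  exact hy

open Pool.Agent.Y990.CB in
lemma infinite_iff {d : ℕ} (ω : V d → Bool) (x : V d) :
    (cluster ω x).Infinite ↔ ω ∈ Perc (siteM d) x := by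
  constructor
  · intro h
    exact h.mono (cluster_sub ω x)
  · intro h
    obtain ⟨y, hy, hyx⟩ := Set.Infinite.exists_notMem_finset h {x}
    have hyx' : y ≠ x := by simpa using hyx
    rw [cluster_eq (open_of hy hyx')]
    exact h

open Pool.Agent.Y990.CB in
lemma P_eq (d : ℕ) (p : unitInterval) : P d p = mu (siteM d) p := rfl

open Pool.Agent.Y990.CB in
lemma theta_eq (d : ℕ) (p : unitInterval) : theta d p = th (siteM d) p := by
  unfold theta th
  rw [P_eq]
  congr 1
  ext ω
  exact infinite_iff ω 0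

open Pool.Agent.Y990.CB in
lemma pc_eq (d : ℕ) : pc d = Pool.Agent.Y990.CB.pc (siteM d) := by
  apply Subtype.ext
  show sSup {t : ℝ | ∃ q : unitInterval, (q : ℝ) = t ∧ theta d q = 0} =
    sSup {x : ℝ | ∃ q : unitInterval, (q : ℝ) = x ∧ th (siteM d) q = 0}
  simp only [theta_eq]

open Pool.Agent.Y990.CB in
lemma truncated_eq (d : ℕ) (p : unitInterval) {x : V d} (hx : x ≠ 0) :
    truncated d p x = Pool.Agent.NH40.tt (siteM d) p x := by
  unfold truncated Pool.Agent.NH40.tt
  rw [P_eq]
  congr 1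
  ext ω
  constructor
  · rintro ⟨h1, h2⟩
    have h3 : ω 0 = true := h2.1
    rw [cluster_eq h3] at h1 h2
    exact ⟨h1, h2⟩
  · rintro ⟨h1, h2⟩
    have h3 : ω 0 = true := open_of h2 hx
    rw [← cluster_eq h3] at h1 h2
    exact ⟨h1, h2⟩

lemma norm_eq {d : ℕ} (x : V d) : ‖x‖ = Pool.Agent.Y990.CB.nm x := by
  apply le_antisymm
  · rw [pi_norm_le_iff_of_nonneg (Nat.cast_nonneg _)]
    intro i
    rw [Int.norm_eq_abs]
    have h := Pool.Agent.Y990.CB.abs_le_nm x i
    exact_mod_cast h
  · rcases Nat.eq_zero_or_pos d with hd | hd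
    · subst hd
      have : Pool.Agent.Y990.CB.nm x = 0 := by
        unfold Pool.Agent.Y990.CB.nm
        simp
      rw [this]
      simp
    · obtain ⟨i, hi⟩ := Pool.Agent.Y990.CB.exists_nm (by omega) x
      have h1 : ‖x i‖ ≤ ‖x‖ := norm_le_pi_norm x i
      rw [Int.norm_eq_abs] at h1
      have h2 : ((|x i| : ℤ) : ℝ) = (Pool.Agent.Y990.CB.nm x : ℝ) := by
        rw [hi]
        simp
      push_cast at h2
      linarith

/-- **The truncated two-point function at and just above the critical point.**  For every `d ≥ 3`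
there are `a > 0` and `C > 0` such that (`‖x‖` is the sup norm):

* for all `x ≠ 0` the `P_{p_c}`-probability that `0` and `x` are in the same finite cluster is at
  least `a (‖x‖ + 1) ^ (- C)`;
* for all `p` with `p_c < p ≤ p_c + a` and all `x ≠ 0` the `P_p`-probability that `0` and `x` are in
  the same finite cluster is at least `a (p - p_c) ^ C exp (- C (p - p_c) ^ a ‖x‖)`, and for all `x`
  of sufficiently large norm (depending on `p`) it is at least `exp (- C (p - p_c) ^ a ‖x‖)`. -/
theorem result (d : ℕ) (hd : 3 ≤ d) : ∃ a C : ℝ, 0 < a ∧ 0 < C ∧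
    (∀ x : V d, x ≠ 0 → a / (‖x‖ + 1) ^ C ≤ truncated d (pc d) x) ∧
    ∀ p : unitInterval, pc d < p → (p : ℝ) ≤ pc d + a →
      (∀ x : V d, x ≠ 0 →
        a * ((p : ℝ) - pc d) ^ C * Real.exp (-(C * ((p : ℝ) - pc d) ^ a * ‖x‖)) ≤
          truncated d p x) ∧
      ∃ R : ℝ, ∀ x : V d, R ≤ ‖x‖ →
        Real.exp (-(C * ((p : ℝ) - pc d) ^ a * ‖x‖)) ≤ truncated d p x := by
  obtain ⟨a, C, ha, hC, h1, h2⟩ := Pool.Agent.NH40.tt_main hd (Pool.Agent.Y990.CB.siteM d)
    Pool.Agent.Y990.CB.nd_site (Pool.Agent.Y448.CB2.qm_site d)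
  refine ⟨a, C + 1, ha, by linarith, ?_, ?_⟩
  · intro x hx
    rw [truncated_eq d _ hx, pc_eq]
    refine le_trans ?_ (h1 x)
    rw [norm_eq]
    have h3 : (1 : ℝ) ≤ (Pool.Agent.Y990.CB.nm x : ℝ) + 1 := by
      have : (0 : ℝ) ≤ (Pool.Agent.Y990.CB.nm x : ℝ) := Nat.cast_nonneg _
      linarith
    refine div_le_div_of_nonneg_left ha.le (Real.rpow_pos_of_pos (by linarith) _) ?_
    exact Real.rpow_le_rpow_of_exponent_le h3 (by linarith)
  · intro p hp hpa
    rw [pc_eq] at hp hpa
    rw [pc_eq]
    have h3 := h2 p hp hpa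
    have hpp : ((Pool.Agent.Y990.CB.pc (Pool.Agent.Y990.CB.siteM d) : unitInterval) : ℝ) < p := hp
    set ε : ℝ := (p : ℝ) - Pool.Agent.Y990.CB.pc (Pool.Agent.Y990.CB.siteM d) with hε
    have hε0 : 0 < ε := by linarith
    have hε1 : ε ≤ 1 := by
      have e1 := p.2.2
      have e2 := (Pool.Agent.Y990.CB.pc (Pool.Agent.Y990.CB.siteM d)).2.1
      linarith
    have hεa : 0 < ε ^ a := Real.rpow_pos_of_pos hε0 _
    have hεC : 0 < ε ^ C := Real.rpow_pos_of_pos hε0 _
    constructor
    · intro x hx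
      rw [truncated_eq d _ hx, norm_eq]
      refine le_trans ?_ (h3 x)
      have h4 : (0 : ℝ) ≤ (Pool.Agent.Y990.CB.nm x : ℝ) := Nat.cast_nonneg _
      refine mul_le_mul ?_ ?_ (Real.exp_pos _).le (by positivity)
      · refine mul_le_mul_of_nonneg_left ?_ ha.le
        exact Real.rpow_le_rpow_of_exponent_ge hε0 hε1 (by linarith)
      · apply Real.exp_le_exp.2
        have : 0 ≤ ε ^ a * (Pool.Agent.Y990.CB.nm x : ℝ) := by positivity
        nlinarith
    · refine ⟨max 1 (-Real.log (a * ε ^ C) / ε ^ a), fun x hx => ?_⟩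
      have hx1 : 1 ≤ ‖x‖ := (le_max_left _ _).trans hx
      have hx0 : x ≠ 0 := by
        rintro rfl
        rw [norm_zero] at hx1
        linarith
      have hx2 : -Real.log (a * ε ^ C) ≤ ε ^ a * ‖x‖ := by
        have := (le_max_right _ _).trans hx
        rw [div_le_iff₀ hεa] at this
        linarith
      rw [truncated_eq d _ hx0]
      refine le_trans ?_ (h3 x)
      rw [← norm_eq]
      have h5 : a * ε ^ C = Real.exp (Real.log (a * ε ^ C)) := (Real.exp_log (by positivity)).symm
      rw [h5, ← Real.exp_add]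
      apply Real.exp_le_exp.2
      linarith

end

end Pool.Agent.Results.MP_e13933_pr.TruncatedAbove
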