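import Pool.Agent.NH40.HS.Main2
import Pool.Agent.NH40.HS.Sharp
import Pool.Agent.NH40.HS.Weak2

set_option autoImplicit false

open MeasureTheory Set Filter
open scoped Topology

/-!
Site percolation on `Z^d`, `d ≥ 3`: critical (even slightly supercritical) densities do not
percolate if the densities are lowered near an interface close to a hyperplane, in infinitely many
annuli.

The theorem is proved in the modules `Pool.Agent.NH40.HS.*`.
-/

namespace Pool.Agent.Results.MP_e13933_pr.WeakInterface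

noncomputable section

/-- Vertices of `Z^d`. -/
abbrev V (d : ℕ) : Type := Fin d → ℤ

/-- Sup norm. -/
def norm {d : ℕ} (x : V d) : ℕ := Finset.univ.sup (fun i => (x i).natAbs)

/-- The open subgraph inside the region `S`: two vertices at Euclidean distance one are joined if
both are open (`ω x = true`) and in `S`. -/
def openGraph {d : ℕ} (ω : V d → Bool) (S : Set (V d)) : SimpleGraph (V d) where
  Adj x y := ∑ i, |x i - y i| = 1 ∧ (x ∈ S ∧ ω x = true) ∧ (y ∈ S ∧ ω y = true)
  symm := ⟨fun x y ⟨h1, h2, h3⟩ => ⟨by simpa only [abs_sub_comm] using h1, h3, h2⟩⟩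
  loopless := ⟨fun x h => by simpa using h.1⟩

/-- The open cluster of `x` inside the region `S` (empty if `x` is closed). -/
def cluster {d : ℕ} (ω : V d → Bool) (S : Set (V d)) (x : V d) : Set (V d) :=
  {y | (ω x = true ∧ x ∈ S) ∧ (openGraph ω S).Reachable x y}

/-- Site percolation with densities `r x`: the vertex `x` is open with probability `r x`,
independently of all others. -/
def P {d : ℕ} (r : V d → unitInterval) : Measure (V d → Bool) :=
  Measure.infinitePi (fun x : V d =>
    ENNReal.ofReal (r x : ℝ) • Measure.dirac true +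
      ENNReal.ofReal (1 - (r x : ℝ)) • Measure.dirac false)

/-- The percolation probability `θ_d(p)` (all densities equal to `p`). -/
def theta (d : ℕ) (p : unitInterval) : ℝ :=
  (P fun _ : V d => p).real {ω | (cluster ω univ 0).Infinite}

/-- The critical point `p_c(d)`, the supremum of the parameters with `θ_d(p) = 0`. -/
def pc (d : ℕ) : unitInterval :=
  ⟨sSup {t : ℝ | ∃ q : unitInterval, (q : ℝ) = t ∧ theta d q = 0}, by
    constructor
    · apply Real.sSup_nonneg
      rintro x ⟨q, rfl, _⟩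
      exact q.2.1
    · apply Real.sSup_le
      · rintro x ⟨q, rfl, _⟩
        exact q.2.2
      · exact zero_le_one⟩

/-! ### Comparison with the model of the modules -/

lemma nd_mem {d : ℕ} {ω : V d → Bool} {x y : V d} :
    (∀ c ∈ (Pool.Agent.Y990.CB.siteM d).nd x y, ω c = true) ↔ ω x = true ∧ ω y = true := by
  show (∀ c : V d, c ∈ ({x, y} : Finset (V d)) → ω c = true) ↔ _
  simp only [Finset.mem_insert, Finset.mem_singleton, forall_eq_or_imp, forall_eq]

open Pool.Agent.Y990.CB in
lemma adj_iff {d : ℕ} (ω : V d → Bool) (S : Set (V d)) (x y : V d) :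
    (openGraph ω S).Adj x y ↔ (G (siteM d) ω S).Adj x y := by
  show (∑ i, |x i - y i| = 1 ∧ (x ∈ S ∧ ω x = true) ∧ (y ∈ S ∧ ω y = true)) ↔
    (∑ i, |x i - y i| = 1 ∧ x ∈ S ∧ y ∈ S ∧ ∀ c ∈ (siteM d).nd x y, ω c = true)
  rw [nd_mem]
  tauto

open Pool.Agent.Y990.CB in
lemma graph_eq {d : ℕ} (ω : V d → Bool) (S : Set (V d)) :
    openGraph ω S = G (siteM d) ω S := by
  ext x y
  exact adj_iff ω S x y

open Pool.Agent.Y990.CB in
lemma cluster_sub {d : ℕ} (ω : V d → Bool) (S : Set (V d)) (x : V d) :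
    cluster ω S x ⊆ cl (siteM d) ω S x := by
  rintro y ⟨-, h⟩
  rw [graph_eq] at h
  exact h

open Pool.Agent.Y990.CB in
lemma infinite_iff {d : ℕ} (ω : V d → Bool) (x : V d) :
    (cluster ω univ x).Infinite ↔ ω ∈ Perc (siteM d) x := by
  constructor
  · intro h
    exact h.mono (cluster_sub ω univ x)
  · intro h
    have hx : ω x = true := by
      obtain ⟨y, hy, hyx⟩ := Set.Infinite.exists_notMem_finset h {x}
      have hyx' : y ≠ x := by simpa using hyx
      have hr : (G (siteM d) ω univ).Reachable x y := hy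
      obtain ⟨q⟩ := hr
      cases q with
      | nil => exact absurd rfl hyx'
      | cons hadj _ => exact (nd_mem.1 hadj.2.2.2).1
    refine Set.Infinite.mono ?_ h
    intro y hy
    refine ⟨⟨hx, mem_univ x⟩, ?_⟩
    rw [graph_eq]
    exact hy

lemma P_eq {d : ℕ} (r : V d → unitInterval) : P r = Pool.Agent.W783.PC.pm r := rfl

instance {d : ℕ} (r : V d → unitInterval) : IsProbabilityMeasure (P r) :=
  inferInstanceAs (IsProbabilityMeasure (Pool.Agent.W783.PC.pm r))

open Pool.Agent.Y990.CB in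
lemma theta_eq (d : ℕ) (p : unitInterval) : theta d p = th (siteM d) p := by
  unfold theta th mu
  rw [P_eq]
  congr 1
  ext ω
  exact infinite_iff ω 0

open Pool.Agent.Y990.CB in
lemma pc_eq (d : ℕ) : pc d = Pool.Agent.Y990.CB.pc (siteM d) := by
  apply Subtype.ext
  show sSup {t : ℝ | ∃ q : unitInterval, (q : ℝ) = t ∧ theta d q = 0} =
    sSup {x : ℝ | ∃ q : unitInterval, (q : ℝ) = x ∧ th (siteM d) q = 0}
  simp only [theta_eq]

/-- The union of the annuli `n ≤ |x| ≤ n ^ B`, `n ∈ J`. -/
def annuli (d : ℕ) (J : Set ℕ) (B : ℕ) : Set (V d) := {x | ∃ n ∈ J, n ≤ norm x ∧ norm x ≤ n ^ B}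

/-- The hypotheses on the height function `f` of the interface, on a set `A` of vertices: it changes
by at most `l` between neighbouring vertices of `A`, and `|f x| ≤ (1 + |x|)^a` on `A`. -/
def Height {d : ℕ} (A : Set (V d)) (l a : ℝ) (f : V d → ℝ) : Prop :=
  (∀ x ∈ A, ∀ y ∈ A, ∑ i, |x i - y i| = 1 → |f x - f y| ≤ l) ∧
    ∀ x ∈ A, |f x| ≤ (1 + (norm x : ℝ)) ^ a

/-- **No percolation with a weak interface.**  For every `d ≥ 3` there are `a, b > 0` and `B ≥ 1`
such that for all coordinates `v` and all `l ≥ 0`: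

* for every `p < p_c` there is `K > 0` such that for every infinite set `J` of scales, every height
  function `f` and all densities `r`: if, in the annuli `n ≤ |x| ≤ n^B`, `n ∈ J`, all densities are
  at most `p_c + (1 + |x|)^(-b)`, and at most `p` at the vertices with
  `|x_v - f x| ≤ K log (2 + |x|)`, then there is almost surely no infinite open cluster (the
  densities outside the annuli are arbitrary);
* there is a sequence `δ n → 0`, `0 < δ n < p_c`, such that the same is true if the densities are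
  at most `p_c - δ |x|` at the vertices of the annuli with `|x_v - f x| ≤ (1 + |x|)^a`. -/
theorem result (d : ℕ) (hd : 3 ≤ d) : ∃ (a b : ℝ) (B : ℕ), 0 < a ∧ 0 < b ∧ 1 ≤ B ∧
    ∀ (v : Fin d) (l : ℝ), 0 ≤ l →
    (∀ p : unitInterval, p < pc d → ∃ K : ℝ, 0 < K ∧
      ∀ (J : Set ℕ) (f : V d → ℝ) (r : V d → unitInterval), J.Infinite →
        Height (annuli d J B) l a f →
        (∀ x ∈ annuli d J B, (r x : ℝ) ≤ pc d + (1 + (norm x : ℝ)) ^ (-b)) →
        (∀ x ∈ annuli d J B, |(x v : ℝ) - f x| ≤ K * Real.log (2 + norm x) → r x ≤ p) →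
        ∀ x : V d, (P r).real {ω | (cluster ω univ x).Infinite} = 0) ∧
    (∃ δ : ℕ → ℝ, (∀ n, 0 < δ n ∧ δ n < pc d) ∧ Tendsto δ atTop (𝓝 0) ∧
      ∀ (J : Set ℕ) (f : V d → ℝ) (r : V d → unitInterval), J.Infinite →
        Height (annuli d J B) l a f →
        (∀ x ∈ annuli d J B, (r x : ℝ) ≤ pc d + (1 + (norm x : ℝ)) ^ (-b)) →
        (∀ x ∈ annuli d J B, |(x v : ℝ) - f x| ≤ (1 + (norm x : ℝ)) ^ a →
          (r x : ℝ) ≤ pc d - δ (norm x)) →
        ∀ x : V d, (P r).real {ω | (cluster ω univ x).Infinite} = 0) := by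
  obtain ⟨a, b, B, ha, hb, hB, h⟩ :=
    Pool.Agent.NH40.HS.weak2 Pool.Agent.NH40.HS.main Pool.Agent.NH40.HS.Shp.sharp d hd
  have key : ∀ (r : V d → unitInterval) (x : V d),
      (Pool.Agent.W783.PC.pm r).real {ω : V d → Bool |
        (Pool.Agent.Y990.CB.cl (Pool.Agent.Y990.CB.siteM d) ω univ x).Infinite} = 0 →
      (P r).real {ω | (cluster ω univ x).Infinite} = 0 := by
    intro r x h0
    refine le_antisymm ?_ measureReal_nonneg
    rw [← h0, P_eq]
    exact measureReal_mono (fun ω hω => Set.Infinite.mono (cluster_sub ω _ x) hω)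
      (measure_ne_top _ _)
  refine ⟨a, b, B, ha, hb, hB, fun v l hl => ?_⟩
  obtain ⟨h1, δ, hδ, hδ0, h2⟩ := h v l hl
  rw [← pc_eq] at h1 hδ h2
  constructor
  · intro p hp
    obtain ⟨K, hK, hK1⟩ := h1 p hp
    refine ⟨K, hK, fun J f r hJ hf hr hrp x => key r x ?_⟩
    exact hK1 J f r hJ (fun x y hx hy hxy => hf.1 x hx y hy hxy) (fun x hx => hf.2 x hx)
      (fun x hx => hr x hx) (fun x hx => hrp x hx) x
  · refine ⟨δ, hδ, hδ0, fun J f r hJ hf hr hrp x => key r x ?_⟩
    exact h2 J f r hJ (fun x y hx hy hxy => hf.1 x hx y hy hxy) (fun x hx => hf.2 x hx)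
      (fun x hx => hr x hx) (fun x hx => hrp x hx) x

end

end Pool.Agent.Results.MP_e13933_pr.WeakInterface
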